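import Pool.Agent.U613.AC.Main
import Pool.Agent.H818R2.Ram.Erdos

/-!
# Automatic colourings with small homogeneous sets
-/

set_option autoImplicit false

namespace Pool.Agent.U613.AC

open Pool.Agent.H818R2.Ram

/-! ### A small graph on the words of length `k` -/

/-- There is a symmetric two-colouring of the binary words of length `k` without homogeneous set of
size `2 k`. -/
theorem exists_small {k : ℕ} (hk : 2 ≤ k) : ∃ adj : List Bool → List Bool → Bool,
    (∀ u v, adj u v = adj v u) ∧ ∀ (S : Finset (List Bool)) (b : Bool), (∀ u ∈ S, u.length = k) →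
      (∀ u ∈ S, ∀ v ∈ S, u ≠ v → adj u v = b) → S.card < 2 * k := by
  classical
  have h1 : 2 ^ k < R (2 * k) (2 * k) := by
    have h2 := erdos_lower (k := 2 * k) (by omega)
    rw [two_mul, pow_add, ← sq, ← two_mul] at h2
    exact lt_of_pow_lt_pow_left₀ 2 (Nat.zero_le _) h2
  obtain ⟨G, hG1, hG2⟩ := exists_coloring h1
  have hc : Fintype.card (List.Vector Bool k) = Fintype.card (Fin (2 ^ k)) := by
    rw [card_vector, Fintype.card_bool, Fintype.card_fin]
  let e := Fintype.equivOfCardEq hc
  let f : List Bool → Fin (2 ^ k) := fun u => if h : u.length = k then e ⟨u, h⟩ else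
    ⟨0, by positivity⟩
  have hinj : ∀ u v : List Bool, u.length = k → v.length = k → f u = f v → u = v := by
    intro u v hu hv h
    simp only [f, dif_pos hu, dif_pos hv] at h
    exact congrArg Subtype.val (e.injective h)
  refine ⟨fun u v => decide (G.Adj (f u) (f v)), fun u v => by simp only [G.adj_comm], ?_⟩
  intro S b hS hb
  by_contra hcon
  rw [not_lt] at hcon
  have hcard : (S.image f).card = S.card :=
    Finset.card_image_of_injOn fun u hu v hv h => hinj u v (hS u hu) (hS v hv) h
  obtain ⟨T, hTS, hT⟩ := Finset.exists_subset_card_eq (n := 2 * k) (s := S.image f) (by omega)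
  cases b with
  | true =>
    refine hG1 ⟨T, Finset.subset_univ _, ?_⟩
    rw [SimpleGraph.isNClique_iff]
    refine ⟨?_, hT⟩
    intro a ha b hb' hab
    obtain ⟨u, hu, rfl⟩ := Finset.mem_image.1 (hTS ha)
    obtain ⟨v, hv, rfl⟩ := Finset.mem_image.1 (hTS hb')
    exact of_decide_eq_true (hb u hu v hv (fun h => hab (by rw [h])))
  | false =>
    refine hG2 ⟨T, Finset.subset_univ _, ?_⟩
    rw [SimpleGraph.isNClique_iff]
    refine ⟨?_, hT⟩
    intro a ha b hb' hab
    obtain ⟨u, hu, rfl⟩ := Finset.mem_image.1 (hTS ha)
    obtain ⟨v, hv, rfl⟩ := Finset.mem_image.1 (hTS hb')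
    rw [SimpleGraph.compl_adj]
    exact ⟨hab, of_decide_eq_false (hb u hu v hv (fun h => hab (by rw [h])))⟩

/-! ### The automaton -/

/-- the states: the colour, or the columns read so far in the present block -/
abbrev St (k : ℕ) : Type := Bool ⊕ (Σ i : Fin k, List.Vector (Bool × Bool) i)

theorem card_St {k : ℕ} (hk : 1 ≤ k) : Fintype.card (St k) ≤ 4 ^ k := by
  have h1 : Fintype.card (St k) = 2 + ∑ i ∈ Finset.range k, 4 ^ i := by
    rw [Fintype.card_sum, Fintype.card_bool, Fintype.card_sigma, Finset.sum_range]
    congr 1
    refine Finset.sum_congr rfl fun i _ => ?_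
    rw [card_vector]
    rfl
  rw [h1]
  clear h1
  induction k, hk using Nat.le_induction with
  | base => simp
  | succ k hk ih =>
    rw [Finset.sum_range_succ, pow_succ]
    omega

variable (adj : List Bool → List Bool → Bool) (k : ℕ)

/-- the end of a block -/
def close (l : List (Bool × Bool)) : Bool ⊕ List (Bool × Bool) :=
  if l.map Prod.fst = l.map Prod.snd then Sum.inr [] else
    Sum.inl (adj (l.map Prod.fst) (l.map Prod.snd))

/-- the transitions, on lists -/
def step' : Bool ⊕ List (Bool × Bool) → Bool × Bool → Bool ⊕ List (Bool × Bool)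
  | Sum.inl c, _ => Sum.inl c
  | Sum.inr l, a => if l.length + 1 < k then Sum.inr (l ++ [a]) else close adj (l ++ [a])

/-- the list of a state -/
def val {k : ℕ} : St k → Bool ⊕ List (Bool × Bool)
  | Sum.inl c => Sum.inl c
  | Sum.inr ⟨_, v⟩ => Sum.inr v.toList

/-- the transitions -/
def step {k : ℕ} : St k → Bool → Bool → St k
  | Sum.inl c, _, _ => Sum.inl c
  | Sum.inr ⟨i, v⟩, a, b =>
    if h : i.1 + 1 < k then
      Sum.inr ⟨⟨i.1 + 1, h⟩, ⟨v.toList ++ [(a, b)], by simp⟩⟩
    else
      if (v.toList ++ [(a, b)]).map Prod.fst = (v.toList ++ [(a, b)]).map Prod.snd then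
        Sum.inr ⟨⟨0, i.pos⟩, ⟨[], rfl⟩⟩
      else Sum.inl (adj ((v.toList ++ [(a, b)]).map Prod.fst) ((v.toList ++ [(a, b)]).map Prod.snd))

theorem val_step {k : ℕ} (q : St k) (a b : Bool) :
    val (step adj q a b) = step' adj k (val q) (a, b) := by
  rcases q with c | ⟨i, v⟩
  · rfl
  · simp only [step, val, step', close, List.Vector.toList_length]
    split_ifs <;> rfl

theorem val_run {k : ℕ} (x : List Bool) : ∀ (y : List Bool) (q : St k),
    val (run (step adj) q x y) = (x.zip y).foldl (step' adj k) (val q) := by
  induction x with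
  | nil => intro y q; rfl
  | cons a x ih =>
    intro y q
    cases y with
    | nil => rfl
    | cons b y =>
      show val (run (step adj) (step adj q a b) x y) = _
      rw [ih, val_step]
      rfl

theorem foldl_inl (c : Bool) (z : List (Bool × Bool)) :
    z.foldl (step' adj k) (Sum.inl c) = Sum.inl c := by
  induction z with
  | nil => rfl
  | cons a z ih => exact ih

theorem foldl_short (z : List (Bool × Bool)) : ∀ l : List (Bool × Bool),
    l.length + z.length < k → z.foldl (step' adj k) (Sum.inr l) = Sum.inr (l ++ z) := by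
  induction z with
  | nil => intro l _; simp
  | cons a z ih =>
    intro l hl
    rw [List.length_cons] at hl
    rw [List.foldl_cons]
    have h1 : step' adj k (Sum.inr l) a = Sum.inr (l ++ [a]) := by
      simp only [step']
      rw [if_pos (by omega)]
    rw [h1, ih (l ++ [a]) (by rw [List.length_append, List.length_singleton]; omega),
      List.append_assoc, List.singleton_append]

theorem foldl_block (hk : 1 ≤ k) (z : List (Bool × Bool)) (hz : z.length = k) :
    z.foldl (step' adj k) (Sum.inr []) = close adj z := by
  have hne : z ≠ [] := by rintro rfl; simp at hz; omega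
  have h1 := List.dropLast_append_getLast hne
  have h2 : z.dropLast.length = k - 1 := by rw [List.length_dropLast, hz]
  calc z.foldl (step' adj k) (Sum.inr [])
      = (z.dropLast ++ [z.getLast hne]).foldl (step' adj k) (Sum.inr []) := by rw [h1]
    _ = step' adj k (Sum.inr z.dropLast) (z.getLast hne) := by
      rw [List.foldl_append, foldl_short adj k z.dropLast [] (by simp; omega)]
      rfl
    _ = close adj z := by
      simp only [step']
      rw [if_neg (by omega), h1]

/-- reading a block -/
theorem foldl_words (hk : 1 ≤ k) {u v : List Bool} (hu : u.length = k) (hv : v.length = k)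
    (x y : List Bool) : ((u ++ x).zip (v ++ y)).foldl (step' adj k) (Sum.inr []) =
      if u = v then (x.zip y).foldl (step' adj k) (Sum.inr []) else Sum.inl (adj u v) := by
  have hl : u.length = v.length := hu.trans hv.symm
  rw [List.zip_append hl, List.foldl_append, foldl_block adj k hk _ (by
    rw [List.length_zip, hu, hv, min_self])]
  have e1 : (u.zip v).map Prod.fst = u := List.map_fst_zip (by omega)
  have e2 : (u.zip v).map Prod.snd = v := List.map_snd_zip (by omega)
  unfold close
  rw [e1, e2]
  split_ifs
  · rfl
  · exact foldl_inl adj k _ _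

/-- the colour of a state -/
def out {k : ℕ} : St k → Bool
  | Sum.inl c => c
  | Sum.inr _ => false

/-- the colour of a list state -/
def out' : Bool ⊕ List (Bool × Bool) → Bool
  | Sum.inl c => c
  | Sum.inr _ => false

theorem out_val {k : ℕ} (q : St k) : out q = out' (val q) := by
  rcases q with c | ⟨i, v⟩ <;> rfl

/-- Homogeneous sets are small. -/
theorem small (hk : 1 ≤ k) (hsym : ∀ u v, adj u v = adj v u)
    (hadj : ∀ (S : Finset (List Bool)) (b : Bool), (∀ u ∈ S, u.length = k) →
      (∀ u ∈ S, ∀ v ∈ S, u ≠ v → adj u v = b) → S.card < 2 * k) (b : Bool) :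
    ∀ (r : ℕ) (S : Finset (List Bool)), (∀ x ∈ S, x.length = k * r) →
      (∀ x ∈ S, ∀ y ∈ S, x < y →
        out' ((x.zip y).foldl (step' adj k) (Sum.inr [])) = b) → S.card ≤ (2 * k - 1) ^ r := by
  classical
  intro r
  induction r with
  | zero =>
    intro S hS _
    rw [pow_zero]
    refine Finset.card_le_one.2 fun x hx y hy => ?_
    have h1 := hS x hx
    have h2 := hS y hy
    rw [mul_zero, List.length_eq_zero_iff] at h1 h2
    rw [h1, h2]
  | succ r ih =>
    intro S hS hb
    have hlen : ∀ x ∈ S, (x.take k).length = k := fun x hx => by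
      rw [List.length_take, hS x hx]
      exact min_eq_left (Nat.le_mul_of_pos_right k (Nat.succ_pos r))
    have hdrop : ∀ x ∈ S, (x.drop k).length = k * r := fun x hx => by
      rw [List.length_drop, hS x hx, Nat.mul_succ]; omega
    -- the heads
    have hT : (S.image (List.take k)).card < 2 * k := by
      refine hadj _ b ?_ ?_
      · intro u hu
        obtain ⟨x, hx, rfl⟩ := Finset.mem_image.1 hu
        exact hlen x hx
      · intro u hu v hv huv
        obtain ⟨x, hx, rfl⟩ := Finset.mem_image.1 hu
        obtain ⟨y, hy, rfl⟩ := Finset.mem_image.1 hv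
        have key : ∀ x ∈ S, ∀ y ∈ S, x.take k ≠ y.take k → x < y →
            adj (x.take k) (y.take k) = b := by
          intro x hx y hy hne hlt
          have h1 := hb x hx y hy hlt
          rw [← List.take_append_drop k x, ← List.take_append_drop k y,
            foldl_words adj k hk (hlen x hx) (hlen y hy), if_neg hne] at h1
          exact h1
        rcases lt_trichotomy x y with h | h | h
        · exact key x hx y hy huv h
        · exact absurd (by rw [h]) huv
        · rw [hsym]
          exact key y hy x hx (Ne.symm huv) h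
    have hfib : ∀ u ∈ S.image (List.take k), (S.filter fun x => x.take k = u).card ≤
        (2 * k - 1) ^ r := by
      intro u _
      have hinj : Set.InjOn (List.drop k)
          (((S.filter fun x => x.take k = u) : Finset (List Bool)) : Set (List Bool)) := by
        intro x hx y hy hxy
        have hx' := (Finset.mem_filter.1 (Finset.mem_coe.1 hx)).2
        have hy' := (Finset.mem_filter.1 (Finset.mem_coe.1 hy)).2
        rw [← List.take_append_drop k x, ← List.take_append_drop k y, hx', hy', hxy]
      rw [← Finset.card_image_of_injOn hinj]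
      refine ih _ ?_ ?_
      · intro x hx
        obtain ⟨x', hx', rfl⟩ := Finset.mem_image.1 hx
        exact hdrop x' (Finset.mem_filter.1 hx').1
      · intro x hx y hy hlt
        obtain ⟨x', hx', rfl⟩ := Finset.mem_image.1 hx
        obtain ⟨y', hy', rfl⟩ := Finset.mem_image.1 hy
        obtain ⟨hx1, hx2⟩ := Finset.mem_filter.1 hx'
        obtain ⟨hy1, hy2⟩ := Finset.mem_filter.1 hy'
        have h0 : x' < y' := by
          rw [← List.take_append_drop k x', ← List.take_append_drop k y', hx2, hy2]
          exact append_left_lt' _ hlt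
        have h1 := hb x' hx1 y' hy1 h0
        rw [← List.take_append_drop k x', ← List.take_append_drop k y',
          foldl_words adj k hk (hlen x' hx1) (hlen y' hy1), if_pos (hx2.trans hy2.symm)] at h1
        exact h1
    calc S.card ≤ (2 * k - 1) ^ r * (S.image (List.take k)).card :=
          Finset.card_le_mul_card_image S _ hfib
      _ ≤ (2 * k - 1) ^ r * (2 * k - 1) := Nat.mul_le_mul_left _ (by omega)
      _ = (2 * k - 1) ^ (r + 1) := by rw [pow_succ]

/-- **Automatic colourings with small homogeneous sets.** -/
theorem lower {k : ℕ} (hk : 2 ≤ k) (r : ℕ) : ∃ (δ : St k → Bool → Bool → St k) (q₀ : St k)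
    (g : St k → Bool), ∀ (S : Finset (List Bool)) (b : Bool), (∀ x ∈ S, x.length = k * r) →
      (∀ x ∈ S, ∀ y ∈ S, x < y → g (run δ q₀ x y) = b) → S.card ≤ (2 * k - 1) ^ r := by
  obtain ⟨adj, hsym, hadj⟩ := exists_small hk
  refine ⟨step adj, Sum.inr ⟨⟨0, by omega⟩, ⟨[], rfl⟩⟩, out, ?_⟩
  intro S b hS hb
  refine small adj k (by omega) hsym hadj b r S hS ?_
  intro x hx y hy hxy
  have h1 := hb x hx y hy hxy
  rw [out_val, val_run] at h1
  exact h1

end Pool.Agent.U613.AC
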