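import Pool.Agent.U613.AC.Core

/-!
# Homogeneous sets of polynomial size for the colourings computed by a finite automaton
-/

set_option autoImplicit false

namespace Pool.Agent.U613.AC

open MulOpposite

section exist

variable {α M : Type*} [Monoid M] [LinearOrder α]

theorem exists_pair [Fintype α] [Fintype M] (h : α → α → M) {l : ℕ}
    (hcard : Fintype.card M < Fintype.card α ^ l) :
    ∃ u v : List α, u.length = l ∧ v.length = l ∧ u < v ∧ ph h u u = ph h v v := by
  classical
  have hc : Fintype.card M < Fintype.card (List.Vector α l) := by rwa [card_vector]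
  obtain ⟨a, b, hab, he⟩ := Fintype.exists_ne_map_eq_of_card_lt
    (fun u : List.Vector α l => ph h u.1 u.1) hc
  have hne : a.1 ≠ b.1 := fun h' => hab (Subtype.ext h')
  rcases lt_or_gt_of_ne hne with h1 | h1
  · exact ⟨a.1, b.1, a.2, b.2, h1, he⟩
  · exact ⟨b.1, a.1, b.2, a.2, h1, he.symm⟩

theorem exists_good [Fintype α] [Fintype M] (h : α → α → M) {l p : ℕ} (hp0 : 0 < p)
    (hp : ∀ t : M, t ^ p * t ^ p = t ^ p) (hcard : Fintype.card M < Fintype.card α ^ l) :
    ∃ (A B : List α) (E F F' : M), A < B ∧ A.length = p * ((2 * p + 1) * l) ∧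
      Good h A B E F F' := by
  obtain ⟨u, v, hu, hv, huv, he⟩ := exists_pair h hcard
  set e := ph h u u with hedef
  set f := ph h u v with hf
  set f' := ph h v u with hf'
  have hlr : (rep p u).length = (rep p u).length := rfl
  have huv' : u.length = v.length := hu.trans hv.symm
  have hee : ph h (rep p u) (rep p u) = e ^ p := ph_rep h rfl p
  have key : ∀ x y : List α, x.length = l → y.length = l →
      ph h (rep p (rep p u ++ (x ++ rep p u))) (rep p (rep p u ++ (y ++ rep p u))) =
        (e ^ p * (ph h x y * e ^ p)) ^ p := by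
    intro x y hx hy
    rw [ph_rep h (by simp only [List.length_append]; omega), ph_append h rfl,
      ph_append h (by omega), hee]
  have hE2 := hp e
  obtain ⟨q, hq⟩ : ∃ q, p = q + 1 := ⟨p - 1, by omega⟩
  have hEx : ∀ t : M, e ^ p * (e ^ p * (t * e ^ p)) ^ p = (e ^ p * (t * e ^ p)) ^ p := by
    intro t
    have h1 : e ^ p * (e ^ p * (t * e ^ p)) = e ^ p * (t * e ^ p) := by
      rw [← mul_assoc, hE2]
    have h2 : (e ^ p * (t * e ^ p)) ^ p =
        (e ^ p * (t * e ^ p)) * (e ^ p * (t * e ^ p)) ^ q := by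
      conv_lhs => rw [hq]
      rw [pow_succ', ← hq]
    rw [h2, ← mul_assoc, h1]
  have hxE : ∀ t : M, (e ^ p * (t * e ^ p)) ^ p * e ^ p = (e ^ p * (t * e ^ p)) ^ p := by
    intro t
    have h1 : e ^ p * (t * e ^ p) * e ^ p = e ^ p * (t * e ^ p) := by
      rw [mul_assoc, mul_assoc, hE2]
    have h2 : (e ^ p * (t * e ^ p)) ^ p =
        (e ^ p * (t * e ^ p)) ^ q * (e ^ p * (t * e ^ p)) := by
      conv_lhs => rw [hq]
      rw [pow_succ, ← hq]
    rw [h2, mul_assoc, h1]
  have hself : (e ^ p * (e * e ^ p)) ^ p = e ^ p := by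
    have h1 : e ^ p * (e * e ^ p) = e ^ (2 * p + 1) := by
      rw [← pow_succ', ← pow_add]; congr 1; ring
    rw [h1, ← pow_mul, mul_comm, pow_mul]
    exact idem_pow hE2 _
  refine ⟨rep p (rep p u ++ (u ++ rep p u)), rep p (rep p u ++ (v ++ rep p u)), e ^ p,
    (e ^ p * (f * e ^ p)) ^ p, (e ^ p * (f' * e ^ p)) ^ p, ?_, ?_, ?_⟩
  · refine rep_lt_rep (by simp only [List.length_append]; omega) ?_ hp0
    exact append_left_lt' _ (append_lt_append huv' huv _ _)
  · rw [rep_length, List.length_append, List.length_append, rep_length, hu]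
    ring
  · exact
      { len := by simp only [rep_length, List.length_append]; rw [huv']
        AA := by rw [key u u hu hu]; exact hself
        BB := by rw [key v v hv hv, ← he]; exact hself
        AB := key u v hu hv
        BA := key v u hv hu
        EE := hE2
        EF := hEx f
        FE := hxE f
        EG := hEx f'
        GE := hxE f'
        FF := hp _
        GG := hp _ }

end exist

/-! ### Automata -/

/-- The state of the automaton with the transition function `δ`, started in the state `q₀`, after it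
has read the columns `(x_1, y_1), (x_2, y_2), …`. -/
def run {α Q : Type*} (δ : Q → α → α → Q) (q₀ : Q) (x y : List α) : Q :=
  (x.zip y).foldl (fun q a => δ q a.1 a.2) q₀

/-- the letter maps -/
def lm {α Q : Type*} (δ : Q → α → α → Q) (a b : α) : (Function.End Q)ᵐᵒᵖ :=
  op (fun q => δ q a b)

theorem run_eq {α Q : Type*} (δ : Q → α → α → Q) (x : List α) : ∀ (y : List α) (q₀ : Q),
    x.length = y.length → run δ q₀ x y = (ph (lm δ) x y).unop q₀ := by
  induction x with
  | nil =>
    intro y q₀ hl
    cases y with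
    | nil => rfl
    | cons b y => simp at hl
  | cons a x ih =>
    intro y q₀ hl
    cases y with
    | nil => simp at hl
    | cons b y =>
      have h1 := ih y (δ q₀ a b) (by simpa using hl)
      have h2 : ph (lm δ) (a :: x) (b :: y) = lm δ a b * ph (lm δ) x y := by
        unfold ph
        rw [List.zipWith_cons_cons, List.prod_cons]
      rw [h2, unop_mul]
      exact h1

/-- the constant -/
def K (w : ℕ) : ℕ := 4 * (w.factorial ^ 2 * (2 * w.factorial + 1) * (w ^ 2 + 1))

theorem card_end_lt {Q : Type*} [Fintype Q] [DecidableEq Q] {w b : ℕ} (hw : Fintype.card Q ≤ w)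
    (hb : 2 ≤ b) (q₀ : Q) :
    Fintype.card (Q → Q) < b ^ (w ^ 2 + 1) := by
  have h0 : 0 < Fintype.card Q := Fintype.card_pos_iff.2 ⟨q₀⟩
  rw [Fintype.card_fun]
  calc Fintype.card Q ^ Fintype.card Q ≤ w ^ Fintype.card Q := Nat.pow_le_pow_left hw _
    _ ≤ w ^ w := Nat.pow_le_pow_right (by omega) hw
    _ ≤ (2 ^ w) ^ w := Nat.pow_le_pow_left (Nat.lt_two_pow_self).le _
    _ = 2 ^ (w ^ 2) := by rw [← pow_mul, sq]
    _ < 2 ^ (w ^ 2 + 1) := Nat.pow_lt_pow_right (by norm_num) (by omega)
    _ ≤ b ^ (w ^ 2 + 1) := Nat.pow_le_pow_left hb _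

/-- **Homogeneous sets of polynomial size.** -/
theorem upper {α Q κ : Type*} [Fintype α] [LinearOrder α] (hα : 2 ≤ Fintype.card α) [Fintype Q]
    {w : ℕ} (hw : Fintype.card Q ≤ w) (δ : Q → α → α → Q) (q₀ : Q) (g : Q → κ)
    (c : List α → List α → κ) {m n : ℕ} (hm : K w * n ≤ m)
    (hc : ∀ x y : List α, x.length = m → y.length = m → x < y → c x y = g (run δ q₀ x y)) :
    ∃ S : Finset (List α), (∀ x ∈ S, x.length = m) ∧ S.card = 2 ^ n ∧
      ∃ k : κ, ∀ x ∈ S, ∀ y ∈ S, x < y → c x y = k := by
  classical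
  have _ : Fintype (Function.End Q)ᵐᵒᵖ := Fintype.ofEquiv (Q → Q) opEquiv
  have hcardM : Fintype.card (Function.End Q)ᵐᵒᵖ < Fintype.card α ^ (w ^ 2 + 1) := by
    have h1 : Fintype.card (Function.End Q)ᵐᵒᵖ = Fintype.card (Q → Q) :=
      Fintype.card_congr ((opEquiv : Function.End Q ≃ (Function.End Q)ᵐᵒᵖ).symm.trans
        (Equiv.refl (Q → Q)))
    rw [h1]
    exact card_end_lt hw hα q₀
  have hp0 : 0 < w.factorial := Nat.factorial_pos w
  obtain ⟨A, B, E, F, F', hAB, hA, hg⟩ := exists_good (lm δ) hp0 (pow_idem hw) hcardM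
  set p := w.factorial with hpdef
  obtain ⟨a₀⟩ : Nonempty α := Fintype.card_pos_iff.1 (by omega)
  set pad : List α := List.replicate (m - K w * n) a₀ with hpad
  -- the code words
  let C : List Bool → List α := fun x => rep p (Z A B x) ++ pad
  have hlenZ : ∀ x : List Bool, x.length = n → (rep p (Z A B x)).length = K w * n := by
    intro x hx
    rw [rep_length, Z_length hg.len, hA, hx]
    unfold K
    rw [← hpdef]
    ring
  have hC : ∀ x : List Bool, x.length = n → (C x).length = m := by
    intro x hx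
    show (rep p (Z A B x) ++ pad).length = m
    rw [List.length_append, hlenZ x hx, hpad, List.length_replicate]
    omega
  have hlt : ∀ x y : List Bool, x.length = n → y.length = n → x < y → C x < C y := by
    intro x y hx hy hxy
    refine append_lt_append (by rw [hlenZ x hx, hlenZ y hy]) ?_ _ _
    exact rep_lt_rep (by rw [Z_length hg.len, Z_length hg.len, hx, hy])
      (Z_lt hg.len hAB x y (hx.trans hy.symm) hxy) hp0
  have hrun : ∀ x y : List Bool, x.length = n → y.length = n → x < y →
      run δ q₀ (C x) (C y) = ((F * F') ^ p * ph (lm δ) pad pad).unop q₀ := by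
    intro x y hx hy hxy
    rw [run_eq δ _ _ _ (by rw [hC x hx, hC y hy])]
    show (ph (lm δ) (rep p (Z A B x) ++ pad) (rep p (Z A B y) ++ pad)).unop q₀ = _
    rw [ph_append _ (by rw [hlenZ x hx, hlenZ y hy]),
      ph_rep_Z hg (pow_idem hw) (hx.trans hy.symm) hxy]
  have hinj : ∀ x y : List Bool, x.length = n → y.length = n → C x = C y → x = y := by
    intro x y hx hy he
    rcases lt_trichotomy x y with h1 | h1 | h1
    · exact absurd he (hlt x y hx hy h1).ne
    · exact h1
    · exact absurd he (hlt y x hy hx h1).ne'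
  have hinj' : Function.Injective (fun x : List.Vector Bool n => C x.toList) := fun x y h =>
    List.Vector.eq _ _ (hinj _ _ x.toList_length y.toList_length h)
  refine ⟨(Finset.univ : Finset (List.Vector Bool n)).image (fun x => C x.toList), ?_, ?_,
    g (((F * F') ^ p * ph (lm δ) pad pad).unop q₀), ?_⟩
  · intro X hX
    obtain ⟨x, _, rfl⟩ := Finset.mem_image.1 hX
    exact hC _ x.toList_length
  · rw [Finset.card_image_of_injective _ hinj', Finset.card_univ, card_vector, Fintype.card_bool]
  · intro X hX Y hY hXY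
    obtain ⟨x, _, rfl⟩ := Finset.mem_image.1 hX
    obtain ⟨y, _, rfl⟩ := Finset.mem_image.1 hY
    have hx := x.toList_length
    have hy := y.toList_length
    generalize x.toList = x at hx hXY ⊢
    generalize y.toList = y at hy hXY ⊢
    have hxy : x < y := by
      rcases lt_trichotomy x y with h1 | h1 | h1
      · exact h1
      · rw [h1] at hXY; exact absurd hXY (lt_irrefl _)
      · exact absurd (hlt y x hy hx h1) (lt_asymm hXY)
    rw [hc _ _ (hC x hx) (hC y hy) hXY, hrun x y hx hy hxy]

end Pool.Agent.U613.AC
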