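import Mathlib

/-!
# Words, products along pairs of words, and the exponent of a transformation monoid
-/

set_option autoImplicit false

namespace Pool.Agent.U613.AC

section words

variable {α M : Type*} [Monoid M]

/-- the product of the `h a b` along a pair of words -/
def ph (h : α → α → M) (x y : List α) : M := (List.zipWith h x y).prod

@[simp] theorem ph_nil (h : α → α → M) : ph h [] [] = 1 := rfl

theorem ph_append (h : α → α → M) {x y : List α} (hl : x.length = y.length) (x' y' : List α) :
    ph h (x ++ x') (y ++ y') = ph h x y * ph h x' y' := by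
  unfold ph
  rw [List.zipWith_append hl, List.prod_append]

/-- the word `x` repeated `p` times -/
def rep (p : ℕ) (x : List α) : List α := (List.replicate p x).flatten

@[simp] theorem rep_zero (x : List α) : rep 0 x = [] := rfl

theorem rep_succ (p : ℕ) (x : List α) : rep (p + 1) x = x ++ rep p x := by
  unfold rep
  rw [List.replicate_succ, List.flatten_cons]

theorem rep_length (p : ℕ) (x : List α) : (rep p x).length = p * x.length := by
  induction p with
  | zero => simp
  | succ p ih => rw [rep_succ, List.length_append, ih]; ring

theorem ph_rep (h : α → α → M) {x y : List α} (hl : x.length = y.length) (p : ℕ) :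
    ph h (rep p x) (rep p y) = ph h x y ^ p := by
  induction p with
  | zero => simp
  | succ p ih => rw [rep_succ, rep_succ, ph_append h hl, ih, pow_succ']

end words

/-! ### Idempotent powers -/

/-- In the monoid of the transformations of a set with at most `w` elements all `w!`-th powers are
idempotent. -/
theorem iterate_idem {Q : Type*} [Fintype Q] {w : ℕ} (hw : Fintype.card Q ≤ w) (f : Q → Q) (q : Q) :
    f^[w.factorial] (f^[w.factorial] q) = f^[w.factorial] q := by
  classical
  -- two equal iterates
  obtain ⟨i, j, hij, hj, he⟩ : ∃ i j : ℕ, i < j ∧ j ≤ w ∧ f^[i] q = f^[j] q := by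
    have hc : Fintype.card Q < Fintype.card (Fin (w + 1)) := by
      rw [Fintype.card_fin]; omega
    obtain ⟨a, b, hab, h⟩ := Fintype.exists_ne_map_eq_of_card_lt
      (fun i : Fin (w + 1) => f^[i.1] q) hc
    rcases lt_or_gt_of_ne (fun h' => hab (Fin.ext h')) with h1 | h1
    · exact ⟨a, b, h1, by omega, h⟩
    · exact ⟨b, a, h1, by omega, h.symm⟩
  have hper : Function.IsPeriodicPt f (j - i) (f^[i] q) := by
    show f^[j - i] (f^[i] q) = f^[i] q
    rw [← Function.iterate_add_apply, Nat.sub_add_cancel hij.le, he]
  have hdvd : (j - i) ∣ w.factorial := Nat.dvd_factorial (by omega) (by omega)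
  have hper' : Function.IsPeriodicPt f w.factorial (f^[i] q) := hper.trans_dvd hdvd
  have hi : i ≤ w.factorial := by
    have := Nat.self_le_factorial w
    omega
  obtain ⟨s, hs⟩ := Nat.exists_eq_add_of_le' hi
  have e1 : f^[w.factorial] q = f^[s] (f^[i] q) := by
    rw [← Function.iterate_add_apply, ← hs]
  rw [e1, ← Function.iterate_add_apply, Nat.add_comm w.factorial s, Function.iterate_add_apply,
    hper'.eq]

theorem pow_idem {Q : Type*} [Fintype Q] {w : ℕ} (hw : Fintype.card Q ≤ w)
    (t : (Function.End Q)ᵐᵒᵖ) : t ^ w.factorial * t ^ w.factorial = t ^ w.factorial := by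
  induction t using MulOpposite.rec' with
  | h f =>
    rw [← MulOpposite.op_pow, ← MulOpposite.op_mul]
    congr 1
    funext q
    have e : ∀ k : ℕ, (f ^ k : Function.End Q) = f^[k] := by
      intro k
      induction k with
      | zero => rfl
      | succ k ih =>
        rw [pow_succ, ih]
        rfl
    rw [e]
    exact iterate_idem hw f q

end Pool.Agent.U613.AC
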